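import Pool.Agent.L7h51.KM.Stm

/-!
# Project KM, part FIL
-/

set_option autoImplicit false

namespace Pool.Agent.L7h53.KM

open Set Cardinal Pool.Agent.L7h51.KM

universe u

theorem s_FIL : S_FIL.{u} := by
  intro α M ι _ _ T hT h
  choose A hA hAE using h
  have hsub : ∀ i, ∀ C ∈ A i, M.IsCircuit C ∧ C ⊆ T i \ ⋃ j ∈ {j | j < i}, T j := by
    intro i C hC
    have hC' := (hA i).1 C hC
    have hE : T i \ ⋃ j ∈ {j | j < i}, T j ⊆ M.E := by
      rw [← hT]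
      exact fun x hx => mem_iUnion.2 ⟨i, hx.1⟩
    rwa [Matroid.restrict_isCircuit_iff hE] at hC'
  refine ⟨⋃ i, A i, ⟨?_, ?_⟩, ?_⟩
  · intro C hC
    obtain ⟨i, hi⟩ := mem_iUnion.1 hC
    exact (hsub i C hi).1
  · intro C hC C' hC' hne
    obtain ⟨i, hi⟩ := mem_iUnion.1 hC
    obtain ⟨j, hj⟩ := mem_iUnion.1 hC'
    rcases lt_trichotomy i j with hij | hij | hij
    · refine Set.disjoint_left.2 fun x hx hx' => ?_
      exact ((hsub j C' hj).2 hx').2 (mem_iUnion₂.2 ⟨i, hij, ((hsub i C hi).2 hx).1⟩)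
    · subst hij
      exact (hA i).2 hi hj hne
    · refine Set.disjoint_left.2 fun x hx hx' => ?_
      exact ((hsub i C hi).2 hx).2 (mem_iUnion₂.2 ⟨j, hij, ((hsub j C' hj).2 hx').1⟩)
  · apply subset_antisymm
    · rintro x ⟨C, hC, hx⟩
      obtain ⟨i, hi⟩ := mem_iUnion.1 hC
      exact (hsub i C hi).1.subset_ground hx
    · intro x hx
      rw [← hT] at hx
      have hne : {i | x ∈ T i}.Nonempty := mem_iUnion.1 hx
      obtain ⟨i, hi, hmin⟩ := WellFounded.has_min (wellFounded_lt (α := ι)) _ hne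
      have hxi : x ∈ T i \ ⋃ j ∈ {j | j < i}, T j := by
        refine ⟨hi, fun h => ?_⟩
        obtain ⟨j, hj, hxj⟩ := mem_iUnion₂.1 h
        exact hmin j hxj hj
      have hxe : x ∈ (M.restrict (T i \ ⋃ j ∈ {j | j < i}, T j)).E := hxi
      rw [← hAE i] at hxe
      obtain ⟨C, hC, hxC⟩ := hxe
      exact ⟨C, mem_iUnion.2 ⟨i, hC⟩, hxC⟩

end Pool.Agent.L7h53.KM
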