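import Pool.Agent.L7h51.KM.Stm

/-!
# Project KM, part REG
-/

set_option autoImplicit false

namespace Pool.Agent.L7h53.KM

open Set Cardinal Pool.Agent.L7h51.KM

universe u

theorem mk_Iio_lt {l : Cardinal.{u}} (i : l.ord.ToType) : #({j | j < i} : Set l.ord.ToType) < l := by
  have h := Ordinal.typein_lt_self i
  rw [← Ordinal.type_Iio_lt, Cardinal.lt_ord, Ordinal.card_type] at h
  exact h

theorem s_REG (hREM : S_REM.{u}) (hHULL : S_HULL.{u}) (hSTEP : S_STEP.{u}) (hFIL : S_FIL.{u}) :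
    S_REG.{u} := by
  classical
  intro α M r hr hrl hl hsc hme hbelow
  set l := #M.E with hldef
  have hcard : #(l.ord.ToType) = l := by rw [Cardinal.mk_toType, Cardinal.card_ord]
  obtain ⟨x⟩ : Nonempty (l.ord.ToType ≃ M.E) := Cardinal.eq.1 (hcard.trans hldef)
  have hGU : ∀ 𝒮 ⊆ {U | Good l M U}, ⋃₀ 𝒮 ∈ {U | Good l M U} := by
    intro 𝒮 h𝒮 D hD hDl hne
    obtain ⟨a, haD, U, hU, haU⟩ := hne
    exact (h𝒮 hU D hD hDl ⟨a, haD, haU⟩).trans (subset_sUnion_of_mem hU)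
  have hGh : ∀ T ⊆ M.E, #T < l → ∃ U ∈ {U | Good l M U}, T ⊆ U ∧ U ⊆ M.E ∧ #U < l := by
    intro T hT hTl
    obtain ⟨A', h1, h2, h3, h4⟩ := hHULL α M r l hr hl hrl hsc T hT hTl
    exact ⟨A', h4, h1, h2, h3⟩
  have hstep : ∀ U ⊆ M.E, #U < l → Good l M U → ∀ a ∈ M.E, ∃ T, Good l M T ∧ U ∪ {a} ⊆ T ∧
      T ⊆ M.E ∧ #T < l ∧ MatchingExtendable r (M.restrict (T \ U)) := by
    intro U hU hUl hG a ha
    have hext := hREM α M r l hr hl hrl hsc hme U hU hUl hG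
    have h1 : #({a} : Set α) < l := by
      rw [mk_singleton]
      exact lt_of_lt_of_le one_lt_aleph0 hl.aleph0_le
    exact hSTEP α M r l hr hl hrl hsc U hU hUl hext {a} (singleton_subset_iff.2 ha) h1 _ hGU hGh
  set f : Set α → α → Set α := fun U a =>
    if h : U ⊆ M.E ∧ #U < l ∧ Good l M U ∧ a ∈ M.E then
      (hstep U h.1 h.2.1 h.2.2.1 a h.2.2.2).choose else ∅ with hfdef
  have hf : ∀ U a, U ⊆ M.E → #U < l → Good l M U → a ∈ M.E → Good l M (f U a) ∧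
      U ∪ {a} ⊆ f U a ∧ f U a ⊆ M.E ∧ #(f U a) < l ∧
      MatchingExtendable r (M.restrict (f U a \ U)) := by
    intro U a h1 h2 h3 h4
    have h : U ⊆ M.E ∧ #U < l ∧ Good l M U ∧ a ∈ M.E := ⟨h1, h2, h3, h4⟩
    have e : f U a = (hstep U h.1 h.2.1 h.2.2.1 a h.2.2.2).choose := by
      simp only [hfdef]
      rw [dif_pos h]
    rw [e]
    exact (hstep U h.1 h.2.1 h.2.2.1 a h.2.2.2).choose_spec
  obtain ⟨T, hT⟩ : ∃ T : l.ord.ToType → Set α, ∀ i, T i = f (⋃ j ∈ {j | j < i}, T j) (x i) := by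
    refine ⟨(wellFounded_lt (α := l.ord.ToType)).fix (C := fun _ => Set α)
      (fun i IH => f (⋃ (j : l.ord.ToType) (hj : j ∈ {j | j < i}), IH j hj) (x i)), fun i => ?_⟩
    rw [WellFounded.fix_eq]
  have key : ∀ i, Good l M (T i) ∧ T i ⊆ M.E ∧ #(T i) < l ∧ (x i : α) ∈ T i ∧
      MatchingExtendable r (M.restrict (T i \ ⋃ j ∈ {j | j < i}, T j)) := by
    intro i
    induction i using WellFoundedLT.induction with
    | ind i ih =>
      have h1 : (⋃ j ∈ {j | j < i}, T j) ⊆ M.E := iUnion₂_subset fun j hj => (ih j hj).2.1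
      have h2 : #(⋃ j ∈ {j | j < i}, T j : Set α) < l :=
        (card_biUnion_lt_iff_forall_of_isRegular hl (mk_Iio_lt i)).2 fun j hj => (ih j hj).2.2.1
      have h3 : Good l M (⋃ j ∈ {j | j < i}, T j) := by
        intro D hD hDl hne
        obtain ⟨a, haD, haU⟩ := hne
        obtain ⟨j, hj, haj⟩ := mem_iUnion₂.1 haU
        exact ((ih j hj).1 D hD hDl ⟨a, haD, haj⟩).trans
          (subset_biUnion_of_mem (u := fun j => T j) hj)
      obtain ⟨k1, k2, k3, k4, k5⟩ := hf _ _ h1 h2 h3 (x i).2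
      rw [← hT i] at k1 k2 k3 k4 k5
      exact ⟨k1, k3, k4, k2 (Or.inr rfl), k5⟩
  refine hFIL α M l.ord.ToType T ?_ ?_
  · apply subset_antisymm
    · exact iUnion_subset fun i => (key i).2.1
    · intro a ha
      refine mem_iUnion.2 ⟨x.symm ⟨a, ha⟩, ?_⟩
      have := (key (x.symm ⟨a, ha⟩)).2.2.2.1
      rwa [Equiv.apply_symm_apply] at this
  · intro i
    refine hbelow _ ?_ ?_ (key i).2.2.2.2
    · show #(T i \ ⋃ j ∈ {j | j < i}, T j : Set α) < l
      exact (mk_le_mk_of_subset sdiff_subset).trans_lt (key i).2.2.1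
    · intro C hC
      have hE : T i \ ⋃ j ∈ {j | j < i}, T j ⊆ M.E := sdiff_subset.trans (key i).2.1
      rw [Matroid.restrict_isCircuit_iff hE] at hC
      exact hsc C hC.1

end Pool.Agent.L7h53.KM
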